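import Pool.Agent.N422.NWS.Stm

/-! Functions on the cube (NWS/CUBE), helper697. -/

set_option autoImplicit false

open Finset

namespace Pool.Agent.Run7.h697.NW

open Pool.Agent.N422.NWS

lemma sum_prod_ite {m : ℕ} (F G : Fin m → ℝ) :
    ∑ X : Finset (Fin m), ∏ c, (if c ∈ X then F c else G c) = ∏ c, (F c + G c) := by
  classical
  rw [Finset.prod_add, Finset.powerset_univ]
  refine Finset.sum_congr rfl fun X _ => ?_
  rw [Finset.prod_ite]
  congr 1
  · refine Finset.prod_congr ?_ fun _ _ => rfl
    ext c; simp
  · refine Finset.prod_congr ?_ fun _ _ => rfl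
    ext c; simp

lemma ee_eq {m : ℕ} (p : Fin m → ℝ) (A X : Finset (Fin m)) :
    ee p A X = ∏ c, (if c ∈ A then (if c ∈ X then 1 else 0) - p c else 1) := by
  classical
  unfold ee
  rw [Finset.prod_ite_mem, Finset.univ_inter]

lemma orth {m : ℕ} (p : Fin m → ℝ) (A A' : Finset (Fin m)) :
    ∑ X, wc p X * (ee p A X * ee p A' X) = if A = A' then ∏ c ∈ A, p c * (1 - p c) else 0 := by
  classical
  have h1 : ∀ X : Finset (Fin m), wc p X * (ee p A X * ee p A' X) =
      ∏ c, (if c ∈ X then p c * ((if c ∈ A then 1 - p c else 1) * (if c ∈ A' then 1 - p c else 1))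
        else (1 - p c) * ((if c ∈ A then - p c else 1) * (if c ∈ A' then - p c else 1))) := by
    intro X
    rw [ee_eq, ee_eq, wc, ← Finset.prod_mul_distrib, ← Finset.prod_mul_distrib]
    refine Finset.prod_congr rfl fun c _ => ?_
    by_cases h : c ∈ X <;> by_cases hA : c ∈ A <;> by_cases hA' : c ∈ A' <;> simp [h, hA, hA']
  rw [Finset.sum_congr rfl fun X _ => h1 X, sum_prod_ite]
  split_ifs with h
  · subst h
    rw [show (∏ c ∈ A, p c * (1 - p c)) = ∏ c, (if c ∈ A then p c * (1 - p c) else 1) by
      rw [Finset.prod_ite_mem, Finset.univ_inter]]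
    refine Finset.prod_congr rfl fun c _ => ?_
    by_cases hA : c ∈ A <;> simp [hA] <;> ring
  · obtain ⟨c, hc⟩ : ∃ c, ¬ (c ∈ A ↔ c ∈ A') := by
      by_contra hcon
      push Not at hcon
      exact h (Finset.ext hcon)
    refine Finset.prod_eq_zero (Finset.mem_univ c) ?_
    by_cases hA : c ∈ A <;> by_cases hA' : c ∈ A'
    · exact absurd (iff_of_true hA hA') hc
    · simp [hA, hA']; ring
    · simp [hA, hA']; ring
    · exact absurd (iff_of_false hA hA') hc

theorem t_CUBE : S_CUBE := by
  classical
  intro m p hp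
  refine ⟨?_, ?_, orth p, ?_⟩
  · intro g M hg
    have hM : 0 ≤ M := (abs_nonneg _).trans (hg ∅)
    let w : Finset (Fin m) → Fin m → ℝ := fun Z c => if c ∈ Z then p c else 1 - p c
    let s : Finset (Fin m) → Fin m → ℝ := fun Z c => if c ∈ Z then 1 else -1
    refine ⟨fun A => ∑ Z, g Z * ((∏ c ∈ A, s Z c) * ∏ c ∈ univ \ A, w Z c), ?_, ?_, ?_⟩
    · intro A
      have hterm : ∀ Z : Finset (Fin m), |g Z * ((∏ c ∈ A, s Z c) * ∏ c ∈ univ \ A, w Z c)| ≤ M := by
        intro Z
        rw [abs_mul, abs_mul, Finset.abs_prod, Finset.abs_prod]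
        have h1 : ∏ c ∈ A, |s Z c| = 1 := by
          refine Finset.prod_eq_one fun c _ => ?_
          simp only [s]
          split_ifs <;> simp
        have h2 : ∏ c ∈ univ \ A, |w Z c| ≤ 1 := by
          refine Finset.prod_le_one (fun c _ => abs_nonneg _) fun c _ => ?_
          obtain ⟨ha, hb⟩ := hp c
          simp only [w]
          split_ifs <;> rw [abs_le] <;> constructor <;> linarith
        have h3 : 0 ≤ ∏ c ∈ univ \ A, |w Z c| := Finset.prod_nonneg fun c _ => abs_nonneg _
        rw [h1, one_mul]
        calc |g Z| * ∏ c ∈ univ \ A, |w Z c| ≤ M * 1 := mul_le_mul (hg Z) h2 h3 hM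
          _ = M := mul_one M
      refine (Finset.abs_sum_le_sum_abs _ _).trans ((Finset.sum_le_sum fun Z _ => hterm Z).trans ?_)
      simp
    · refine Finset.sum_congr rfl fun Z _ => ?_
      simp only [Finset.prod_empty, one_mul, Finset.sdiff_empty]
      rw [mul_comm]
      rfl
    · intro X
      have hkey : ∀ Z : Finset (Fin m), ∑ A : Finset (Fin m),
          ((∏ c ∈ A, s Z c) * ∏ c ∈ univ \ A, w Z c) * ee p A X = if X = Z then 1 else 0 := by
        intro Z
        have h1 : ∑ A : Finset (Fin m), ((∏ c ∈ A, s Z c) * ∏ c ∈ univ \ A, w Z c) * ee p A X =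
            ∏ c, (s Z c * ((if c ∈ X then 1 else 0) - p c) + w Z c) := by
          rw [Finset.prod_add, Finset.powerset_univ]
          refine Finset.sum_congr rfl fun A _ => ?_
          rw [Finset.prod_mul_distrib]
          unfold ee
          ring
        rw [h1]
        split_ifs with h
        · subst h
          refine Finset.prod_eq_one fun c _ => ?_
          by_cases hc : c ∈ X <;> simp [s, w, hc]
        · obtain ⟨c, hc⟩ : ∃ c, ¬ (c ∈ X ↔ c ∈ Z) := by
            by_contra hcon
            push Not at hcon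
            exact h (Finset.ext hcon)
          refine Finset.prod_eq_zero (Finset.mem_univ c) ?_
          by_cases hA : c ∈ X <;> by_cases hA' : c ∈ Z
          · exact absurd (iff_of_true hA hA') hc
          · simp [s, w, hA, hA']
          · simp [s, w, hA, hA']
          · exact absurd (iff_of_false hA hA') hc
      calc g X = ∑ Z, g Z * (if X = Z then 1 else 0) := by simp
        _ = ∑ Z, g Z * ∑ A : Finset (Fin m), ((∏ c ∈ A, s Z c) * ∏ c ∈ univ \ A, w Z c) * ee p A X := by
            refine Finset.sum_congr rfl fun Z _ => ?_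
            rw [hkey Z]
        _ = ∑ A : Finset (Fin m), ∑ Z, g Z * (((∏ c ∈ A, s Z c) * ∏ c ∈ univ \ A, w Z c) * ee p A X) := by
            rw [Finset.sum_comm]
            refine Finset.sum_congr rfl fun Z _ => ?_
            rw [Finset.mul_sum]
        _ = _ := by
            refine Finset.sum_congr rfl fun A _ => ?_
            rw [Finset.sum_mul]
            refine Finset.sum_congr rfl fun Z _ => ?_
            ring
  · intro X
    have hne : ∀ c, 1 - p c ≠ 0 := fun c => by
      have := (hp c).2
      intro h
      linarith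
    have h1 : ∑ A : Finset (Fin m), (-1) ^ A.card * (∏ c ∈ A, (1 - p c))⁻¹ * ee p A X =
        ∏ c, (-(1 - p c)⁻¹ * ((if c ∈ X then 1 else 0) - p c) + 1) := by
      rw [Finset.prod_add, Finset.powerset_univ]
      refine Finset.sum_congr rfl fun A _ => ?_
      rw [Finset.prod_const_one, mul_one, Finset.prod_mul_distrib, Finset.prod_neg,
        Finset.prod_inv_distrib]
      unfold ee
      ring
    rw [h1]
    split_ifs with h
    · subst h
      rw [← Finset.prod_inv_distrib]
      refine Finset.prod_congr rfl fun c _ => ?_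
      have := hne c
      simp only [Finset.notMem_empty, if_false]
      field_simp
      ring
    · obtain ⟨c, hc⟩ := Finset.nonempty_iff_ne_empty.2 h
      symm
      refine Finset.prod_eq_zero (Finset.mem_univ c) ?_
      have := hne c
      simp only [hc, if_true]
      field_simp
      ring
  · have := orth p ∅ ∅
    simpa [ee] using this

end Pool.Agent.Run7.h697.NW
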