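import Pool.Agent.N422.NWS.Stm

/-! The kernel of one site is almost adjoint (NWS/SEQ), helper697. -/

set_option autoImplicit false

open Finset

namespace Pool.Agent.Run7.h697.NW

open Pool.Agent.N422.NWS

section

variable {N m : ℕ}

/-- the places in the windows `≥ j` -/
def Wge (win : Fin N → ℕ) (j : ℕ) : Finset (Fin N) := univ.filter (fun i => j ≤ win i)

/-- the places in the window `j` -/
def Wj (win : Fin N → ℕ) (j : ℕ) : Finset (Fin N) := univ.filter (fun i => win i = j)

/-- the local factor -/
noncomputable def al (k : ℕ) (u : Fin N → ℝ) (T : Finset (Fin N)) (i : Fin N) : ℝ :=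
  if i ∈ T then u i * (1 + 2 * k * u i) else 1 - u i

/-- the factor of the window `l` -/
noncomputable def gg (win : Fin N → ℕ) (cel : Fin N → Fin m) (u : Fin N → ℝ)
    (σ : ℕ → ℝ) (θ : ℕ → Finset (Fin m) → ℝ) (T' T : Finset (Fin N)) (l : ℕ) : ℝ :=
  if (∀ i ∈ T, l ≤ win i) then
    (1 - θ l ((Tl win T l).image cel)) / (1 - σ l) *
      ((1 - σ l) * (if Tl win T' l = Tl win T l then 1 else 0) + mW win u l T' * θ l ((Tl win T' l).image cel))
  else (if Tl win T' l = Tl win T l then 1 else 0)

lemma PW_mul_KW (win : Fin N → ℕ) (cel : Fin N → Fin m) (u : Fin N → ℝ) (L : ℕ)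
    (σ : ℕ → ℝ) (θ : ℕ → Finset (Fin m) → ℝ) (T T' : Finset (Fin N)) :
    PW win cel L σ θ T * KW win cel u L σ θ T T' = ∏ l ∈ range L, gg win cel u σ θ T' T l := by
  unfold PW KW gg
  rw [← Finset.prod_mul_distrib]
  refine Finset.prod_congr rfl fun l _ => ?_
  by_cases h : ∀ i ∈ T, l ≤ win i
  · rw [if_pos h, if_pos h, if_pos h]
  · rw [if_neg h, if_neg h, if_neg h, one_mul]

lemma sum_powerset_disj {ι M : Type} [DecidableEq ι] [AddCommMonoid M] (A B : Finset ι) (h : Disjoint A B)
    (F : Finset ι → M) :
    ∑ T ∈ (A ∪ B).powerset, F T = ∑ X ∈ A.powerset, ∑ Y ∈ B.powerset, F (X ∪ Y) := by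
  rw [← Finset.sum_product']
  refine Finset.sum_nbij' (fun T => (T ∩ A, T ∩ B)) (fun p => p.1 ∪ p.2) ?_ ?_ ?_ ?_ ?_
  · intro T _
    simp [Finset.inter_subset_right]
  · intro p hp
    simp only [Finset.mem_product, Finset.mem_powerset] at hp ⊢
    exact Finset.union_subset_union hp.1 hp.2
  · intro T hT
    simp only [Finset.mem_powerset] at hT
    show (T ∩ A) ∪ (T ∩ B) = T
    rw [← Finset.inter_union_distrib_left]
    exact Finset.inter_eq_left.2 hT
  · rintro ⟨X, Y⟩ hp
    simp only [Finset.mem_product, Finset.mem_powerset] at hp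
    have hXB : Disjoint X B := Finset.disjoint_of_subset_left hp.1 h
    have hYA : Disjoint Y A := (Finset.disjoint_of_subset_right hp.2 h).symm
    show ((X ∪ Y) ∩ A, (X ∪ Y) ∩ B) = (X, Y)
    rw [Finset.union_inter_distrib_right, Finset.union_inter_distrib_right,
      Finset.inter_eq_left.2 hp.1, Finset.inter_eq_left.2 hp.2,
      Finset.disjoint_iff_inter_eq_empty.1 hYA, Finset.disjoint_iff_inter_eq_empty.1 hXB,
      Finset.union_empty, Finset.empty_union]
  · intro T hT
    simp only [Finset.mem_powerset] at hT
    show F T = F ((T ∩ A) ∪ (T ∩ B))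
    rw [← Finset.inter_union_distrib_left, Finset.inter_eq_left.2 hT]

lemma sum_powerset_prod {ι : Type} [DecidableEq ι] (W : Finset ι) (F G : ι → ℝ) :
    ∑ X ∈ W.powerset, ∏ c ∈ W, (if c ∈ X then F c else G c) = ∏ c ∈ W, (F c + G c) := by
  rw [Finset.prod_add]
  refine Finset.sum_congr rfl fun X hX => ?_
  rw [Finset.mem_powerset] at hX
  rw [Finset.prod_ite]
  congr 1
  · refine Finset.prod_congr ?_ fun _ _ => rfl
    ext c
    simp only [Finset.mem_filter]
    exact ⟨fun h => h.2, fun h => ⟨hX h, h⟩⟩
  · refine Finset.prod_congr ?_ fun _ _ => rfl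
    ext c
    simp

end

/-- one window -/
lemma one_window {N m : ℕ} (k : ℕ) (win : Fin N → ℕ) (cel : Fin N → Fin m) (u : Fin N → ℝ) (σ : ℕ → ℝ)
    (θ : ℕ → Finset (Fin m) → ℝ) (j : ℕ) (hu : ∀ i, 0 ≤ u i ∧ u i ≤ 1 / 2)
    (hθ : ∀ X, 0 ≤ θ j X ∧ θ j X ≤ 1 / 2)
    (hσ : σ j = ∑ S ∈ (univ.filter (fun i => win i = j)).powerset, mW win u j S * θ j (S.image cel))
    (T' : Finset (Fin N)) :
    (∀ X ∈ (Wj win j).powerset, 0 ≤ (∏ i ∈ Wj win j, al k u X i) * ((1 - θ j (X.image cel)) / (1 - σ j) *
      ((1 - σ j) * (if Tl win T' j = X then 1 else 0) + mW win u j T' * θ j ((Tl win T' j).image cel)))) ∧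
    ∑ X ∈ (Wj win j).powerset, (∏ i ∈ Wj win j, al k u X i) * ((1 - θ j (X.image cel)) / (1 - σ j) *
      ((1 - σ j) * (if Tl win T' j = X then 1 else 0) + mW win u j T' * θ j ((Tl win T' j).image cel))) ≤
      (∏ i ∈ Wj win j, (1 + 2 * k * u i ^ 2)) * ∏ i ∈ Wj win j, al k u T' i := by
  classical
  set W := Wj win j with hW
  have hk : (0 : ℝ) ≤ k := Nat.cast_nonneg k
  have hmW : ∀ S, mW win u j S = ∏ i ∈ W, (if i ∈ S then u i else 1 - u i) := fun S => rfl
  have hmW0 : ∀ S, 0 ≤ mW win u j S := by
    intro S
    rw [hmW]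
    refine Finset.prod_nonneg fun i _ => ?_
    obtain ⟨h0, h1⟩ := hu i
    split_ifs <;> linarith
  have hmle : ∀ S, mW win u j S ≤ ∏ i ∈ W, al k u S i := by
    intro S
    rw [hmW]
    refine Finset.prod_le_prod (fun i _ => ?_) fun i _ => ?_
    · obtain ⟨h0, h1⟩ := hu i
      split_ifs <;> linarith
    · obtain ⟨h0, h1⟩ := hu i
      unfold al
      split_ifs
      · have : 0 ≤ u i * (2 * k * u i) := by positivity
        linarith
      · exact le_rfl
  have hsum1 : ∑ S ∈ W.powerset, mW win u j S = 1 := by
    rw [Finset.sum_congr rfl fun S _ => hmW S, sum_powerset_prod]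
    refine Finset.prod_eq_one fun i _ => ?_
    ring
  have hsum2 : ∑ S ∈ W.powerset, ∏ i ∈ W, al k u S i = ∏ i ∈ W, (1 + 2 * k * u i ^ 2) := by
    unfold al
    rw [sum_powerset_prod]
    refine Finset.prod_congr rfl fun i _ => ?_
    ring
  have hσ' : σ j = ∑ S ∈ W.powerset, mW win u j S * θ j (S.image cel) := hσ
  have hσ0 : 0 ≤ σ j := by
    rw [hσ']
    exact Finset.sum_nonneg fun S _ => mul_nonneg (hmW0 S) (hθ _).1
  have hσ1 : σ j ≤ 1 / 2 := by
    rw [hσ']
    calc ∑ S ∈ W.powerset, mW win u j S * θ j (S.image cel) ≤ ∑ S ∈ W.powerset, mW win u j S * (1 / 2) :=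
          Finset.sum_le_sum fun S _ => mul_le_mul_of_nonneg_left (hθ _).2 (hmW0 S)
      _ = 1 / 2 := by rw [← Finset.sum_mul, hsum1, one_mul]
  have hpos : 0 < 1 - σ j := by linarith
  have hal0 : ∀ S i, 0 ≤ al k u S i := by
    intro S i
    obtain ⟨h0, h1⟩ := hu i
    unfold al
    split_ifs
    · positivity
    · linarith
  refine ⟨?_, ?_⟩
  · intro X _
    refine mul_nonneg (Finset.prod_nonneg fun i _ => hal0 _ _) (mul_nonneg (div_nonneg ?_ hpos.le) (add_nonneg (mul_nonneg hpos.le ?_)
      (mul_nonneg (hmW0 _) (hθ _).1)))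
    · have := (hθ (X.image cel)).2
      linarith
    · split_ifs <;> norm_num
  · set Y := Tl win T' j with hY
    have hYW : Y ∈ W.powerset := by
      rw [Finset.mem_powerset]
      intro i hi
      rw [hY, Tl, Finset.mem_filter] at hi
      rw [hW, Wj, Finset.mem_filter]
      exact ⟨Finset.mem_univ _, hi.2⟩
    have halY : ∏ i ∈ W, al k u Y i = ∏ i ∈ W, al k u T' i := by
      refine Finset.prod_congr rfl fun i hi => ?_
      rw [hW, Wj, Finset.mem_filter] at hi
      unfold al
      have : i ∈ Y ↔ i ∈ T' := by
        rw [hY, Tl, Finset.mem_filter]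
        exact ⟨fun h => h.1, fun h => ⟨h, hi.2⟩⟩
      simp only [this]
    set a : Finset (Fin N) → ℝ := fun X => ∏ i ∈ W, al k u X i with ha
    set M := mW win u j T' with hM
    set D := ∏ i ∈ W, (1 + 2 * k * u i ^ 2) with hD
    -- the sum with the weights `1 - θ`
    have hS : ∑ X ∈ W.powerset, a X * (1 - θ j (X.image cel)) ≤ 1 - σ j + (D - 1) := by
      have h1 : ∑ X ∈ W.powerset, mW win u j X * (1 - θ j (X.image cel)) = 1 - σ j := by
        calc ∑ X ∈ W.powerset, mW win u j X * (1 - θ j (X.image cel)) =
              ∑ X ∈ W.powerset, (mW win u j X - mW win u j X * θ j (X.image cel)) :=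
              Finset.sum_congr rfl fun X _ => by ring
          _ = 1 - σ j := by rw [Finset.sum_sub_distrib, hsum1, hσ']
      have h2 : ∑ X ∈ W.powerset, (a X - mW win u j X) * (1 - θ j (X.image cel)) ≤ D - 1 := by
        calc ∑ X ∈ W.powerset, (a X - mW win u j X) * (1 - θ j (X.image cel)) ≤
              ∑ X ∈ W.powerset, (a X - mW win u j X) * 1 := by
              refine Finset.sum_le_sum fun X _ => mul_le_mul_of_nonneg_left ?_ (sub_nonneg.2 (hmle X))
              have := (hθ (X.image cel)).1
              linarith
          _ = D - 1 := by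
              rw [← Finset.sum_mul, mul_one, Finset.sum_sub_distrib, hsum1]
              exact congrArg (fun x => x - 1) hsum2
      calc ∑ X ∈ W.powerset, a X * (1 - θ j (X.image cel)) =
            ∑ X ∈ W.powerset, mW win u j X * (1 - θ j (X.image cel)) +
            ∑ X ∈ W.powerset, (a X - mW win u j X) * (1 - θ j (X.image cel)) := by
            rw [← Finset.sum_add_distrib]
            refine Finset.sum_congr rfl fun X _ => ?_
            ring
        _ ≤ _ := by rw [h1]; linarith
    have hD1 : 1 ≤ D := by
      rw [hD]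
      have : (1 : ℝ) = ∏ i ∈ W, (1 : ℝ) := by simp
      rw [this]
      refine Finset.prod_le_prod (fun _ _ => zero_le_one) fun i _ => ?_
      have : 0 ≤ 2 * (k : ℝ) * u i ^ 2 := by positivity
      linarith
    have hexp : ∑ X ∈ W.powerset, a X * ((1 - θ j (X.image cel)) / (1 - σ j) *
        ((1 - σ j) * (if Y = X then 1 else 0) + M * θ j (Y.image cel))) =
        a Y * (1 - θ j (Y.image cel)) +
        M * θ j (Y.image cel) / (1 - σ j) * ∑ X ∈ W.powerset, a X * (1 - θ j (X.image cel)) := by
      have h1 : ∀ X ∈ W.powerset, a X * ((1 - θ j (X.image cel)) / (1 - σ j) *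
          ((1 - σ j) * (if Y = X then 1 else 0) + M * θ j (Y.image cel))) =
          (if Y = X then a X * (1 - θ j (X.image cel)) else 0) +
          M * θ j (Y.image cel) / (1 - σ j) * (a X * (1 - θ j (X.image cel))) := by
        intro X _
        have := hpos.ne'
        split_ifs
        · field_simp
        · field_simp
          ring
      rw [Finset.sum_congr rfl h1, Finset.sum_add_distrib, Finset.sum_ite_eq, if_pos hYW, ← Finset.mul_sum]
    rw [hexp]
    have hMa : M ≤ a Y := by
      rw [ha]
      simp only
      rw [halY]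
      exact hmle T'
    have hM0 : 0 ≤ M := hmW0 T'
    have hθ0 := (hθ (Y.image cel)).1
    have hθ1 := (hθ (Y.image cel)).2
    set τ := θ j (Y.image cel) with hτ
    have h3 : M * τ / (1 - σ j) * ∑ X ∈ W.powerset, a X * (1 - θ j (X.image cel)) ≤
        M * τ * (1 + 2 * (D - 1)) := by
      calc M * τ / (1 - σ j) * ∑ X ∈ W.powerset, a X * (1 - θ j (X.image cel)) ≤
            M * τ / (1 - σ j) * (1 - σ j + (D - 1)) :=
            mul_le_mul_of_nonneg_left hS (div_nonneg (mul_nonneg hM0 hθ0) hpos.le)
        _ = M * τ * (1 + (D - 1) / (1 - σ j)) := by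
            field_simp
        _ ≤ M * τ * (1 + 2 * (D - 1)) := by
            refine mul_le_mul_of_nonneg_left ?_ (mul_nonneg hM0 hθ0)
            have : (D - 1) / (1 - σ j) ≤ 2 * (D - 1) := by
              rw [div_le_iff₀ hpos]
              nlinarith [sub_nonneg.2 hD1]
            linarith
    have h4 : a Y * (1 - τ) + M * τ * (1 + 2 * (D - 1)) ≤ D * a Y := by
      have ha0 : 0 ≤ a Y := hM0.trans hMa
      have e1 : M * τ * (1 + 2 * (D - 1)) ≤ a Y * τ * (1 + 2 * (D - 1)) := by
        refine mul_le_mul_of_nonneg_right (mul_le_mul_of_nonneg_right hMa hθ0) ?_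
        linarith
      have e2 : a Y * τ * (2 * (D - 1)) ≤ a Y * (D - 1) := by
        have : τ * (2 * (D - 1)) ≤ D - 1 := by nlinarith [sub_nonneg.2 hD1]
        calc a Y * τ * (2 * (D - 1)) = a Y * (τ * (2 * (D - 1))) := by ring
          _ ≤ a Y * (D - 1) := mul_le_mul_of_nonneg_left this ha0
      nlinarith
    have h5 : a Y = ∏ i ∈ W, al k u T' i := halY
    calc a Y * (1 - τ) + M * τ / (1 - σ j) * ∑ X ∈ W.powerset, a X * (1 - θ j (X.image cel)) ≤
          a Y * (1 - τ) + M * τ * (1 + 2 * (D - 1)) := by linarith
      _ ≤ D * a Y := h4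
      _ = _ := by rw [h5]

theorem t_SEQ : S_SEQ := by
  classical
  intro N m L k win cel u σ θ hwin hu hθ hσ T'
  have hk : (0 : ℝ) ≤ k := Nat.cast_nonneg k
  have hal0 : ∀ S i, 0 ≤ al k u S i := by
    intro S i
    obtain ⟨h0, h1⟩ := hu i
    unfold al
    split_ifs
    · positivity
    · linarith
  -- the induction over the windows
  have key : ∀ d : ℕ, ∀ j : ℕ, j + d = L →
      ∑ T ∈ (Wge win j).powerset, (∏ i ∈ Wge win j, al k u T i) * ∏ l ∈ Ico j L, gg win cel u σ θ T' T l ≤
        (∏ i ∈ Wge win j, (1 + 2 * k * u i ^ 2)) * ∏ i ∈ Wge win j, al k u T' i := by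
    intro d
    induction d with
    | zero =>
      intro j hj
      have hj' : j = L := by simpa using hj
      subst hj'
      have hempty : Wge win j = ∅ := by
        rw [Wge, Finset.filter_eq_empty_iff]
        intro i _
        have := hwin i
        omega
      rw [hempty]
      simp
    | succ d ih =>
      intro j hj
      have hjL : j < L := by omega
      have ih' := ih (j + 1) (by omega)
      have hdisj : Disjoint (Wj win j) (Wge win (j + 1)) := by
        rw [Finset.disjoint_left]
        intro i h1 h2
        rw [Wj, Finset.mem_filter] at h1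
        rw [Wge, Finset.mem_filter] at h2
        omega
      have hunion : Wge win j = Wj win j ∪ Wge win (j + 1) := by
        ext i
        simp only [Wge, Wj, Finset.mem_union, Finset.mem_filter, Finset.mem_univ, true_and]
        omega
      obtain ⟨hnn, hone⟩ := one_window k win cel u σ θ j hu (hθ j hjL) (hσ j hjL) T'
      set R := (∏ i ∈ Wge win (j + 1), (1 + 2 * k * u i ^ 2)) * ∏ i ∈ Wge win (j + 1), al k u T' i with hR
      have hD1 : 1 ≤ ∏ i ∈ Wge win (j + 1), (1 + 2 * (k : ℝ) * u i ^ 2) := by
        have : (1 : ℝ) = ∏ i ∈ Wge win (j + 1), (1 : ℝ) := by simp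
        rw [this]
        refine Finset.prod_le_prod (fun _ _ => zero_le_one) fun i _ => ?_
        have : 0 ≤ 2 * (k : ℝ) * u i ^ 2 := by positivity
        linarith
      have hprod0 : 0 ≤ ∏ i ∈ Wge win (j + 1), al k u T' i := Finset.prod_nonneg fun i _ => hal0 _ _
      have hR1 : ∏ i ∈ Wge win (j + 1), al k u T' i ≤ R := by
        rw [hR]
        nlinarith
      rw [hunion, sum_powerset_disj _ _ hdisj]
      -- the inner sum
      have hinner : ∀ X ∈ (Wj win j).powerset, ∑ Y ∈ (Wge win (j + 1)).powerset,
          (∏ i ∈ Wj win j ∪ Wge win (j + 1), al k u (X ∪ Y) i) *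
            ∏ l ∈ Ico j L, gg win cel u σ θ T' (X ∪ Y) l ≤
          ((∏ i ∈ Wj win j, al k u X i) * ((1 - θ j (X.image cel)) / (1 - σ j) *
            ((1 - σ j) * (if Tl win T' j = X then 1 else 0) + mW win u j T' * θ j ((Tl win T' j).image cel)))) * R := by
        intro X hX
        have hXnn := hnn X hX
        rw [Finset.mem_powerset] at hX
        have hXw : ∀ i ∈ X, win i = j := fun i hi => by
          have := hX hi
          rw [Wj, Finset.mem_filter] at this
          exact this.2
        have hstep : ∀ Y ∈ (Wge win (j + 1)).powerset,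
            (∏ i ∈ Wj win j ∪ Wge win (j + 1), al k u (X ∪ Y) i) *
            ∏ l ∈ Ico j L, gg win cel u σ θ T' (X ∪ Y) l =
            ((∏ i ∈ Wj win j, al k u X i) * ((1 - θ j (X.image cel)) / (1 - σ j) *
            ((1 - σ j) * (if Tl win T' j = X then 1 else 0) + mW win u j T' * θ j ((Tl win T' j).image cel)))) *
            ((∏ i ∈ Wge win (j + 1), al k u Y i) * ∏ l ∈ Ico (j + 1) L, gg win cel u σ θ T' (X ∪ Y) l) := by
          intro Y hY
          rw [Finset.mem_powerset] at hY
          have hYw : ∀ i ∈ Y, j + 1 ≤ win i := fun i hi => by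
            have := hY hi
            rw [Wge, Finset.mem_filter] at this
            exact this.2
          rw [Finset.prod_union hdisj]
          have e1 : ∏ i ∈ Wj win j, al k u (X ∪ Y) i = ∏ i ∈ Wj win j, al k u X i := by
            refine Finset.prod_congr rfl fun i hi => ?_
            rw [Wj, Finset.mem_filter] at hi
            have : i ∈ X ∪ Y ↔ i ∈ X := by
              rw [Finset.mem_union]
              refine ⟨fun h => h.elim id fun h => ?_, Or.inl⟩
              have := hYw i h
              omega
            unfold al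
            simp only [this]
          have e2 : ∏ i ∈ Wge win (j + 1), al k u (X ∪ Y) i = ∏ i ∈ Wge win (j + 1), al k u Y i := by
            refine Finset.prod_congr rfl fun i hi => ?_
            rw [Wge, Finset.mem_filter] at hi
            have : i ∈ X ∪ Y ↔ i ∈ Y := by
              rw [Finset.mem_union]
              refine ⟨fun h => h.elim (fun h => ?_) id, Or.inr⟩
              have := hXw i h
              omega
            unfold al
            simp only [this]
          have e3 : Tl win (X ∪ Y) j = X := by
            ext i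
            rw [Tl, Finset.mem_filter, Finset.mem_union]
            constructor
            · rintro ⟨h | h, h2⟩
              · exact h
              · have := hYw i h
                omega
            · intro h
              exact ⟨Or.inl h, hXw i h⟩
          have e4 : ∀ i ∈ X ∪ Y, j ≤ win i := by
            intro i hi
            rw [Finset.mem_union] at hi
            rcases hi with h | h
            · exact (hXw i h).ge
            · have := hYw i h
              omega
          rw [e1, e2, Finset.prod_eq_prod_Ico_succ_bot hjL]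
          have e5 : gg win cel u σ θ T' (X ∪ Y) j = (1 - θ j (X.image cel)) / (1 - σ j) *
            ((1 - σ j) * (if Tl win T' j = X then 1 else 0) + mW win u j T' * θ j ((Tl win T' j).image cel)) := by
            unfold gg
            rw [if_pos e4, e3]
          rw [e5]
          ring
        rw [Finset.sum_congr rfl hstep, ← Finset.mul_sum]
        refine mul_le_mul_of_nonneg_left ?_ hXnn
        have hTl : ∀ Y ∈ (Wge win (j + 1)).powerset, ∀ l ∈ Ico (j + 1) L, Tl win (X ∪ Y) l = Tl win Y l := by
          intro Y _ l hl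
          rw [Finset.mem_Ico] at hl
          ext i
          rw [Tl, Finset.mem_filter, Finset.mem_union, Tl, Finset.mem_filter]
          constructor
          · rintro ⟨h | h, h2⟩
            · have := hXw i h
              omega
            · exact ⟨h, h2⟩
          · rintro ⟨h, h2⟩
            exact ⟨Or.inr h, h2⟩
        rcases X.eq_empty_or_nonempty with hX0 | hX0
        · have e6 : ∀ Y ∈ (Wge win (j + 1)).powerset,
              (∏ i ∈ Wge win (j + 1), al k u Y i) * ∏ l ∈ Ico (j + 1) L, gg win cel u σ θ T' (X ∪ Y) l =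
              (∏ i ∈ Wge win (j + 1), al k u Y i) * ∏ l ∈ Ico (j + 1) L, gg win cel u σ θ T' Y l := by
            intro Y _
            rw [hX0, Finset.empty_union]
          rw [Finset.sum_congr rfl e6]
          exact ih'
        · obtain ⟨i0, hi0⟩ := hX0
          refine le_trans ?_ hR1
          set Y0 := T' ∩ Wge win (j + 1) with hY0
          have hY0W : Y0 ∈ (Wge win (j + 1)).powerset := by
            rw [Finset.mem_powerset]
            exact Finset.inter_subset_right
          have e7 : ∀ Y ∈ (Wge win (j + 1)).powerset,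
              (∏ i ∈ Wge win (j + 1), al k u Y i) * ∏ l ∈ Ico (j + 1) L, gg win cel u σ θ T' (X ∪ Y) l ≤
              if Y = Y0 then ∏ i ∈ Wge win (j + 1), al k u T' i else 0 := by
            intro Y hY
            have hgg : ∀ l ∈ Ico (j + 1) L, gg win cel u σ θ T' (X ∪ Y) l =
                if Tl win T' l = Tl win Y l then 1 else 0 := by
              intro l hl
              have hl' := hl
              rw [Finset.mem_Ico] at hl'
              unfold gg
              rw [if_neg, hTl Y hY l hl]
              push Not
              refine ⟨i0, Finset.mem_union_left _ hi0, ?_⟩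
              rw [hXw i0 hi0]
              omega
            rw [Finset.prod_congr rfl hgg]
            rw [Finset.mem_powerset] at hY
            split_ifs with h
            · have e8 : ∏ i ∈ Wge win (j + 1), al k u Y i = ∏ i ∈ Wge win (j + 1), al k u T' i := by
                refine Finset.prod_congr rfl fun i hi => ?_
                have : i ∈ Y ↔ i ∈ T' := by
                  rw [h, hY0, Finset.mem_inter]
                  exact ⟨fun h => h.1, fun h => ⟨h, hi⟩⟩
                unfold al
                simp only [this]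
              rw [e8]
              refine mul_le_of_le_one_right hprod0 (Finset.prod_le_one (fun l _ => ?_) fun l _ => ?_)
              · split_ifs <;> norm_num
              · split_ifs <;> norm_num
            · have hex : ∃ l ∈ Ico (j + 1) L, Tl win T' l ≠ Tl win Y l := by
                by_contra hcon
                push Not at hcon
                apply h
                ext i
                rw [hY0, Finset.mem_inter]
                constructor
                · intro hi
                  have hi2 := hY hi
                  refine ⟨?_, hi2⟩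
                  rw [Wge, Finset.mem_filter] at hi2
                  have h1 := hcon (win i) (Finset.mem_Ico.2 ⟨hi2.2, hwin i⟩)
                  have h2 : i ∈ Tl win Y (win i) := by
                    rw [Tl, Finset.mem_filter]
                    exact ⟨hi, rfl⟩
                  rw [← h1, Tl, Finset.mem_filter] at h2
                  exact h2.1
                · rintro ⟨hi, hi2⟩
                  rw [Wge, Finset.mem_filter] at hi2
                  have h1 := hcon (win i) (Finset.mem_Ico.2 ⟨hi2.2, hwin i⟩)
                  have h2 : i ∈ Tl win T' (win i) := by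
                    rw [Tl, Finset.mem_filter]
                    exact ⟨hi, rfl⟩
                  rw [h1, Tl, Finset.mem_filter] at h2
                  exact h2.1
              obtain ⟨l, hl, hne⟩ := hex
              rw [Finset.prod_eq_zero hl (if_neg hne), mul_zero]
          refine (Finset.sum_le_sum e7).trans ?_
          rw [Finset.sum_ite_eq', if_pos hY0W]
      refine (Finset.sum_le_sum hinner).trans ?_
      rw [← Finset.sum_mul]
      have hR0 : 0 ≤ R := hprod0.trans hR1
      refine (mul_le_mul_of_nonneg_right hone hR0).trans (le_of_eq ?_)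
      rw [Finset.prod_union hdisj, Finset.prod_union hdisj, hR]
      ring
  have h0 := key L 0 (by omega)
  have huniv : Wge win 0 = univ := by
    ext i
    simp [Wge]
  rw [huniv, Finset.powerset_univ] at h0
  have hLHS : ∑ T, muPl k u T * PW win cel L σ θ T * KW win cel u L σ θ T T' =
      ∑ T : Finset (Fin N), (∏ i, al k u T i) * ∏ l ∈ Ico 0 L, gg win cel u σ θ T' T l := by
    refine Finset.sum_congr rfl fun T _ => ?_
    rw [mul_assoc, PW_mul_KW, ← Finset.range_eq_Ico]
    rfl
  rw [hLHS]
  refine h0.trans ?_
  have hmu : ∏ i, al k u T' i = muPl k u T' := rfl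
  rw [hmu]
  have hmu0 : 0 ≤ muPl k u T' := by
    rw [← hmu]
    exact Finset.prod_nonneg fun i _ => hal0 _ _
  refine mul_le_mul_of_nonneg_right ?_ hmu0
  calc ∏ i, (1 + 2 * (k : ℝ) * u i ^ 2) ≤ ∏ i, Real.exp (4 * k * u i ^ 2) := by
        refine Finset.prod_le_prod (fun i _ => by positivity) fun i _ => ?_
        have h1 := Real.add_one_le_exp (4 * (k : ℝ) * u i ^ 2)
        have h2 : 0 ≤ (k : ℝ) * u i ^ 2 := by positivity
        linarith
    _ = Real.exp (4 * k * ∑ i, u i ^ 2) := by
        rw [← Real.exp_sum, Finset.mul_sum]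

end Pool.Agent.Run7.h697.NW
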